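import Pool.Agent.Lib.MP_c7af3c_ag.GEN.Groups
import Pool.Agent.Lib.MP_c7af3c_ag.GEN.H38.Sproj

/-!
# MP_c7af3c_ag, project GEN: module GFIN
-/

set_option autoImplicit false

namespace Pool.Agent.Gen.H41

open AlgebraicGeometry CategoryTheory CategoryTheory.Limits MonoidalCategory
  CartesianMonoidalCategory MonObj
open MvPolynomial (homogeneousSubmodule)

theorem kval_comp {K' : Type} [Field K'] {X Y : Scheme.{0}}
    (y : Spec (CommRingCat.of K') ⟶ X) (φ : X ⟶ Y) (U : Y.Opens)
    (h : ⊤ ≤ (y ≫ φ) ⁻¹ᵁ U) (h' : ⊤ ≤ y ⁻¹ᵁ (φ ⁻¹ᵁ U)) (f : Γ(Y, U)) :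
    kval (y ≫ φ) U h f = kval y (φ ⁻¹ᵁ U) h' ((φ.app U).hom f) := by
  unfold kval
  rw [Scheme.Hom.comp_appLE]
  rfl

/-- a set of values at a point -/
def vals {k : Type} [Field k] {A : Scheme.{0}} {a : A ⟶ Spec (CommRingCat.of k)}
    (Ch : Charts a) {K' : Type} [Field K'] (y : Spec (CommRingCat.of K') ⟶ A) : Set K' :=
  {t | ∃ (i : Ch.I) (h : ⊤ ≤ y ⁻¹ᵁ Ch.U i), ∃ b ∈ Ch.gens i, kval y (Ch.U i) h b = t}

theorem vals_finite {k : Type} [Field k] {A : Scheme.{0}} {a : A ⟶ Spec (CommRingCat.of k)}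
    (Ch : Charts a) {K' : Type} [Field K'] (y : Spec (CommRingCat.of K') ⟶ A) :
    (vals Ch y).Finite := by
  have := Ch.fin
  have h1 : vals Ch y = ⋃ i : Ch.I, ⋃ h : ⊤ ≤ y ⁻¹ᵁ Ch.U i,
      (fun b => kval y (Ch.U i) h b) '' Ch.gens i := by
    ext t
    simp only [vals, Set.mem_setOf_eq, Set.mem_iUnion, Set.mem_image]
  rw [h1]
  refine Set.finite_iUnion fun i => Set.finite_iUnion fun h => ?_
  exact (Ch.gens_fin i).image _

/-- Module GFIN. -/
theorem gfin (hL : ThmlStatement) (hM : GmulStatement) (hV : GvalStatement)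
    (hC : GchartStatement) (hP : GprojStatement) : GfinStatement := by
  intro k _ _ _ n c d F hhom hind hd _ A _ hprop _ φ hφ hF K' _ _ _ P R
  have hcharK : CharZero K' :=
    charZero_of_injective_algebraMap (algebraMap k K').injective
  obtain ⟨Ch⟩ := hC k A.left A.hom inferInstance inferInstance
  obtain ⟨T1, hT1, hmul⟩ := hM k K' A hprop Ch
  have hval := fun j l : Fin (n + 1) => hV k K' A.left A.hom hprop Ch
    (φ ⁻¹ᵁ Proj.basicOpen (homogeneousSubmodule (Fin (n + 1)) k) (MvPolynomial.X j))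
    ((φ.app (Proj.basicOpen (homogeneousSubmodule (Fin (n + 1)) k) (MvPolynomial.X j))).hom
      (coordSec k n j l))
  choose T2 hT2 hval using hval
  -- the finitely generated field
  let S : Set K' := algebraMap k K' '' (T1 ∪ ⋃ j, ⋃ l, T2 j l) ∪ (vals Ch P.left ∪ vals Ch R.left)
  have hS : S.Finite := by
    refine ((hT1.union (Set.finite_iUnion fun j => Set.finite_iUnion fun l => hT2 j l)).image
      _).union ((vals_finite Ch _).union (vals_finite Ch _))
  let K : Subfield K' := Subfield.closure S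
  have hSK : S ⊆ K := Subfield.subset_closure
  have hratP : Ch.IsRat K P.left := by
    intro i h b hb
    exact hSK (Or.inr (Or.inl ⟨i, h, b, hb, rfl⟩))
  have hratR : Ch.IsRat K R.left := by
    intro i h b hb
    exact hSK (Or.inr (Or.inr ⟨i, h, b, hb, rfl⟩))
  have hmulK := hmul K (fun t ht => hSK (Or.inl ⟨t, Or.inl ht, rfl⟩))
  have hvalK := fun j l => hval j l K (fun t ht => hSK (Or.inl ⟨t, Or.inr
    (Set.mem_iUnion.2 ⟨j, Set.mem_iUnion.2 ⟨l, ht⟩⟩), rfl⟩))
  have hrat : ∀ m : ℕ, Ch.IsRat K (R * P ^ m).left := by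
    intro m
    induction m with
    | zero => rw [pow_zero, _root_.mul_one]; exact hratR
    | succ m ih =>
      rw [pow_succ, ← _root_.mul_assoc]
      exact hmulK _ _ ih hratP
  -- the points of projective space
  let y : ℕ → (Spec (CommRingCat.of K') ⟶ A.left) := fun m => (R * P ^ m).left
  have hy : ∀ m, y m ≫ A.hom = Spec.map (CommRingCat.ofHom (algebraMap k K')) :=
    fun m => Over.w (R * P ^ m)
  let pt : Spec (CommRingCat.of K') := (⟨⊥, Ideal.isPrime_bot⟩ : PrimeSpectrum K')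
  have hpt : ∀ x : Spec (CommRingCat.of K'), x = pt := fun x =>
    @Subsingleton.elim (PrimeSpectrum K') _ x pt
  have hch : ∀ m, ∃ j : Fin (n + 1), ⊤ ≤ (y m ≫ φ) ⁻¹ᵁ
      Proj.basicOpen (homogeneousSubmodule (Fin (n + 1)) k) (MvPolynomial.X j) := by
    intro m
    obtain ⟨j, hj⟩ := (H38.sproj k n).chart ((y m ≫ φ).base pt)
    refine ⟨j, ?_⟩
    intro x _
    rw [hpt x]
    exact hj
  choose jm hjm using hch
  obtain ⟨j0, hj0⟩ := Finite.exists_infinite_fiber jm
  -- the coordinates of the points over `j0`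
  let F' : Fin c → MvPolynomial (Fin (n + 1)) K' := fun m => MvPolynomial.map (algebraMap k K') (F m)
  have hF'hom : ∀ m, (F' m).IsHomogeneous (d m) := fun m => (hhom m).map _
  have hF'ind : AlgebraicIndependent ℤ (coeffs d F') := by
    have h1 : coeffs d F' = ((algebraMap k K').toIntAlgHom : k → K') ∘ coeffs d F := by
      funext s
      change MvPolynomial.coeff s.1.2 (MvPolynomial.map (algebraMap k K') (F s.1.1)) =
        algebraMap k K' (MvPolynomial.coeff s.1.2 (F s.1.1))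
      rw [MvPolynomial.coeff_map]
    rw [h1]
    exact hind.map' (f := (algebraMap k K').toIntAlgHom) (algebraMap k K').injective
  have hfin := hL K' n c d F' hF'hom hF'ind hd S hS j0
  let x : jm ⁻¹' {j0} → (Fin (n + 1) → K') := fun m =>
    pcoordE k n j0 (y m.1 ≫ φ) (by have := hjm m.1; rwa [show jm m.1 = j0 from m.2] at this)
  have hxS : ∀ m, x m ∈ {x : Fin (n + 1) → K' | x j0 = 1 ∧ (∀ j, x j ∈ Subfield.closure S) ∧
      ∀ m, MvPolynomial.eval x (F' m) = 0} := by
    intro m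
    have hm : ⊤ ≤ (y m.1 ≫ φ) ⁻¹ᵁ
        Proj.basicOpen (homogeneousSubmodule (Fin (n + 1)) k) (MvPolynomial.X j0) := by
      have := hjm m.1; rwa [show jm m.1 = j0 from m.2] at this
    refine ⟨(hP k n K').one j0 _ hm, ?_, ?_⟩
    · intro l
      change kval (y m.1 ≫ φ) _ hm (coordSec k n j0 l) ∈ K
      rw [kval_comp (y m.1) φ _ hm hm]
      exact hvalK j0 l (y m.1) (hy m.1) (hrat m.1) hm
    · intro i
      have h2 := (hP k n K').zero j0 (y m.1 ≫ φ) hm
        (by rw [Category.assoc, hφ, hy]) (d i) (F i) (hhom i) (fun a => by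
          exact hF ((y m.1).base a) i)
      change MvPolynomial.eval (x m) (MvPolynomial.map (algebraMap k K') (F i)) = 0
      rw [MvPolynomial.eval_map, ← MvPolynomial.aeval_def]
      exact h2
  have hnotinj : ¬ Function.Injective x := by
    intro hinj
    have h3 : Finite (jm ⁻¹' {j0}) := by
      have h4 : (Set.range x).Finite := hfin.subset (by rintro _ ⟨m, rfl⟩; exact hxS m)
      exact Set.finite_range_iff hinj |>.1 h4
    exact hj0.not_finite h3
  rw [Function.Injective] at hnotinj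
  push Not at hnotinj
  obtain ⟨m1, m2, h12, hne⟩ := hnotinj
  refine ⟨m1.1, m2.1, fun h => hne (Subtype.ext h), ?_⟩
  exact (hP k n K').inj j0 _ _ _ _ (by rw [Category.assoc, hφ]; exact hy m1.1)
    (by rw [Category.assoc, hφ]; exact hy m2.1) h12

end Pool.Agent.Gen.H41
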